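import Mathlib

/-!
# Trofimov's oscillation theorem fails for finitely presented semigroups

There are only countably many growth functions of finitely presented semigroups. Each of them is
either exponential or subexponential. One subexponential function `f₂` eventually dominates all the
subexponential ones. So for this `f₂` and every subexponential `f₁` (for instance `f₁ n = n ^ 3`) no
finitely presented semigroup has a growth function which is infinitely often below `f₁` and
infinitely often above `f₂`.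
-/

namespace Pool.Agent.Results.MP_dd6e79_al.OscillationFails

/-- The elements of the semigroup `S` that can be written as a product of at most `n` elements of
`X` (the product of the nonempty list `a :: l` is `l.foldl (· * ·) a`). -/
def ball {S : Type*} [Semigroup S] (X : Set S) (n : ℕ) : Set S :=
  {s | ∃ a ∈ X, ∃ l : List S, (∀ x ∈ l, x ∈ X) ∧ l.length + 1 ≤ n ∧ l.foldl (· * ·) a = s}

/-- The growth function of the semigroup `S` with respect to `X`: the number of elements that can
be written as a product of at most `n` elements of `X`. -/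
noncomputable def growth {S : Type*} [Semigroup S] (X : Set S) (n : ℕ) : ℕ := (ball X n).ncard

/-- A semigroup is finitely presented if it is isomorphic to the quotient of the free semigroup on
finitely many letters by the congruence generated by a finite set of pairs of words. -/
def FinitelyPresented (S : Type*) [Semigroup S] : Prop :=
  ∃ (k : ℕ) (R : Finset (FreeSemigroup (Fin k) × FreeSemigroup (Fin k))),
    Nonempty (S ≃* (conGen (fun u v => (u, v) ∈ R)).Quotient)

/-- `f ⪯ g`: there is a constant `C ≥ 1` with `f n ≤ C * g (C * n)` for all `n`. -/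
def Dom (f g : ℕ → ℕ) : Prop := ∃ C : ℕ, 1 ≤ C ∧ ∀ n, f n ≤ C * g (C * n)

/-- Equivalence of growth functions. -/
def Equivalent (f g : ℕ → ℕ) : Prop := Dom f g ∧ Dom g f

/-- `f` is subexponential: for every `k` we have `f n ≤ 2 ^ (n / k)` for all large `n`. -/
def Subexponential (f : ℕ → ℕ) : Prop := ∀ k : ℕ, ∃ N, ∀ n, N ≤ n → f n ^ k ≤ 2 ^ n

/-! ### Growth in the semigroup with an identity adjoined -/

section growth

variable {S : Type*} [Semigroup S]

lemma foldl_coe (a : S) (l : List S) :
    ((l.foldl (· * ·) a : S) : WithOne S) = (a : WithOne S) * (l.map ((↑) : S → WithOne S)).prod := by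
  induction l generalizing a with
  | nil => simp
  | cons b t ih => simp only [List.foldl_cons, List.map_cons, List.prod_cons]; rw [ih]; simp [mul_assoc]

/-- Products of at most `n` elements of `X` in the semigroup with an identity adjoined. -/
def ball1 (X : Set S) (n : ℕ) : Set (WithOne S) :=
  {s | ∃ l : List S, (∀ x ∈ l, x ∈ X) ∧ l.length ≤ n ∧ (l.map ((↑) : S → WithOne S)).prod = s}

lemma ball1_eq (X : Set S) (n : ℕ) : ball1 X n = insert 1 (((↑) : S → WithOne S) '' ball X n) := by
  ext s
  constructor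
  · rintro ⟨l, hl, hn, rfl⟩
    cases l with
    | nil => simp
    | cons a t =>
      right
      refine ⟨t.foldl (· * ·) a, ⟨a, hl a (by simp), t, fun x hx => hl x (by simp [hx]),
        by simpa using hn, rfl⟩, ?_⟩
      rw [foldl_coe]; simp
  · rintro (rfl | ⟨x, ⟨a, ha, l, hl, hn, rfl⟩, rfl⟩)
    · exact ⟨[], by simp, by simp, by simp⟩
    · refine ⟨a :: l, ?_, by simpa using hn, ?_⟩
      · intro x hx
        rcases List.mem_cons.1 hx with rfl | hx
        · exact ha
        · exact hl x hx
      · rw [foldl_coe]; simp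

open Pointwise in
lemma ball1_add (X : Set S) (m n : ℕ) : ball1 X (m + n) = ball1 X m * ball1 X n := by
  ext s
  constructor
  · rintro ⟨l, hl, hn, rfl⟩
    refine ⟨_, ⟨l.take m, fun x hx => hl x (List.mem_of_mem_take hx), by simp, rfl⟩, _,
      ⟨l.drop m, fun x hx => hl x (List.mem_of_mem_drop hx), by simp; omega, rfl⟩, ?_⟩
    show (List.map _ _).prod * (List.map _ _).prod = _
    rw [← List.prod_append, ← List.map_append, List.take_append_drop]
  · rintro ⟨_, ⟨l, hl, hn, rfl⟩, _, ⟨l', hl', hn', rfl⟩, rfl⟩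
    refine ⟨l ++ l', ?_, by simp; omega, by simp⟩
    intro x hx
    rcases List.mem_append.1 hx with h | h
    · exact hl x h
    · exact hl' x h

lemma ball1_mono (X : Set S) {m n : ℕ} (h : m ≤ n) : ball1 X m ⊆ ball1 X n := by
  rintro _ ⟨l, hl, hn, rfl⟩
  exact ⟨l, hl, hn.trans h, rfl⟩

lemma ball1_finite {X : Set S} (hX : X.Finite) (n : ℕ) : (ball1 X n).Finite := by
  induction n with
  | zero =>
    refine (Set.finite_singleton (1 : WithOne S)).subset ?_
    rintro _ ⟨l, hl, hn, rfl⟩
    have : l = [] := List.length_eq_zero_iff.1 (by omega)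
    subst this; simp
  | succ n ih =>
    rw [ball1_add]
    refine ih.mul ?_
    refine ((hX.image ((↑) : S → WithOne S)).insert 1).subset ?_
    rintro _ ⟨l, hl, hn, rfl⟩
    match l, hn with
    | [], _ => simp
    | [a], _ => right; exact ⟨a, hl a (by simp), by simp⟩

lemma ball_finite {X : Set S} (hX : X.Finite) (n : ℕ) : (ball X n).Finite := by
  have h := ball1_finite hX n
  rw [ball1_eq] at h
  exact Set.Finite.of_finite_image (h.subset (Set.subset_insert _ _)) WithOne.coe_injective.injOn

lemma ncard_ball1 {X : Set S} (hX : X.Finite) (n : ℕ) : (ball1 X n).ncard = growth X n + 1 := by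
  have hmem : (1 : WithOne S) ∉ ((↑) : S → WithOne S) '' ball X n := by
    rintro ⟨x, -, hx⟩
    exact WithOne.coe_ne_one hx
  rw [ball1_eq, Set.ncard_insert_of_notMem hmem ((ball_finite hX n).image _),
    Set.ncard_image_of_injective _ WithOne.coe_injective, growth]

lemma growth_mono {X : Set S} (hX : X.Finite) {m n : ℕ} (h : m ≤ n) : growth X m ≤ growth X n := by
  have := Set.ncard_le_ncard (ball1_mono X h) (ball1_finite hX n)
  rw [ncard_ball1 hX, ncard_ball1 hX] at this
  omega

open Pointwise in
lemma growth_submul {X : Set S} (hX : X.Finite) (m n : ℕ) :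
    growth X (m + n) + 1 ≤ (growth X m + 1) * (growth X n + 1) := by
  rw [← ncard_ball1 hX, ← ncard_ball1 hX, ← ncard_ball1 hX, ball1_add, ← Set.ncard_prod,
    ← Set.image_mul_prod]
  exact Set.ncard_image_le ((ball1_finite hX m).prod (ball1_finite hX n))

end growth

/-! ### The dichotomy -/

lemma dichotomy {h : ℕ → ℕ} (h0 : h 0 = 1) (hmono : ∀ m n, m ≤ n → h m ≤ h n)
    (hsub : ∀ m n, h (m + n) ≤ h m * h n) :
    Subexponential h ∨ ∃ k, 1 ≤ k ∧ ∀ n, 2 ^ n ≤ h n ^ k := by
  by_cases hk : ∃ k, 1 ≤ k ∧ ∀ n, 2 ^ n ≤ h n ^ k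
  · exact Or.inr hk
  left
  push Not at hk
  intro k
  obtain ⟨n, hn⟩ := hk (2 * (k + 1)) (by omega)
  have hn1 : 1 ≤ n := by
    rcases Nat.eq_zero_or_pos n with rfl | h
    · simp [h0] at hn
    · exact h
  have hpow : ∀ q, h (n * q) ≤ h n ^ q := by
    intro q
    induction q with
    | zero => simp [h0]
    | succ q ih =>
      rw [Nat.mul_succ, pow_succ]
      exact (hsub _ _).trans (Nat.mul_le_mul_right _ ih)
  have h1 : ∀ m, 1 ≤ h m := fun m => h0 ▸ hmono 0 m (Nat.zero_le _)
  refine ⟨n, fun m hm => ?_⟩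
  have e1 : h m ≤ h n ^ (m / n + 1) :=
    (hmono _ _ (by
      have := Nat.div_add_mod m n
      have := Nat.mod_lt m (show 0 < n by omega)
      rw [Nat.mul_succ]; omega)).trans (hpow _)
  have e2 : h m ^ (2 * (k + 1)) ≤ 2 ^ (2 * m) := by
    calc h m ^ (2 * (k + 1)) ≤ (h n ^ (m / n + 1)) ^ (2 * (k + 1)) := Nat.pow_le_pow_left e1 _
      _ = (h n ^ (2 * (k + 1))) ^ (m / n + 1) := by rw [← pow_mul, ← pow_mul, mul_comm]
      _ ≤ (2 ^ n) ^ (m / n + 1) := Nat.pow_le_pow_left hn.le _
      _ = 2 ^ (n * (m / n) + n) := by rw [← pow_mul, Nat.mul_succ]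
      _ ≤ 2 ^ (2 * m) := Nat.pow_le_pow_right (by norm_num) (by
        have := Nat.mul_div_le m n
        omega)
  have e3 : h m ^ (k + 1) ≤ 2 ^ m := by
    have : (h m ^ (k + 1)) ^ 2 ≤ (2 ^ m) ^ 2 := by
      rw [← pow_mul, ← pow_mul, mul_comm (k + 1) 2, mul_comm m 2]; exact e2
    exact (Nat.pow_le_pow_iff_left (by norm_num)).1 this
  exact (Nat.pow_le_pow_right (h1 m) (Nat.le_succ k)).trans e3

/-! ### One function above countably many subexponential ones -/

lemma Subexponential.mono {f g : ℕ → ℕ} (hg : Subexponential g) (N : ℕ)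
    (h : ∀ n, N ≤ n → f n ≤ g n) : Subexponential f := by
  intro k
  obtain ⟨M, hM⟩ := hg k
  exact ⟨max N M, fun n hn => (Nat.pow_le_pow_left (h n (le_of_max_le_left hn)) _).trans
    (hM n (le_of_max_le_right hn))⟩

lemma Subexponential.const (c : ℕ) : Subexponential (fun _ => c) := by
  intro k
  exact ⟨c ^ k, fun n hn => hn.trans (Nat.lt_two_pow_self).le⟩

lemma Subexponential.mul {f g : ℕ → ℕ} (hf : Subexponential f) (hg : Subexponential g) :
    Subexponential (fun n => f n * g n) := by
  intro k
  obtain ⟨M, hM⟩ := hf (2 * k)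
  obtain ⟨N, hN⟩ := hg (2 * k)
  refine ⟨max M N, fun n hn => ?_⟩
  have h1 := hM n (le_of_max_le_left hn)
  have h2 := hN n (le_of_max_le_right hn)
  have : ((f n * g n) ^ k) ^ 2 ≤ (2 ^ n) ^ 2 := by
    calc ((f n * g n) ^ k) ^ 2 = f n ^ (2 * k) * g n ^ (2 * k) := by
          rw [← pow_mul, mul_pow, mul_comm k 2]
      _ ≤ 2 ^ n * 2 ^ n := Nat.mul_le_mul h1 h2
      _ = (2 ^ n) ^ 2 := by ring
  exact (Nat.pow_le_pow_iff_left (by norm_num)).1 this

lemma Subexponential.add {f g : ℕ → ℕ} (hf : Subexponential f) (hg : Subexponential g) :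
    Subexponential (fun n => f n + g n) := by
  have h := (hf.mul hg)
  have h2 : Subexponential (fun n => (f n + 1) * (g n + 1)) := by
    have e : ∀ {f : ℕ → ℕ}, Subexponential f → Subexponential (fun n => f n + 1) := by
      intro f hf
      have h3 := (Subexponential.const 2).mul hf
      have h4 := h3
      intro k
      obtain ⟨M, hM⟩ := h3 k
      obtain ⟨N, hN⟩ := (Subexponential.const 2) k
      refine ⟨max M N, fun n hn => ?_⟩
      rcases Nat.eq_zero_or_pos (f n) with h0 | h0
      · have := hN n (le_of_max_le_right hn)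
        simp only [h0]
        exact (Nat.pow_le_pow_left (by norm_num) _).trans this
      · have h5 : f n + 1 ≤ 2 * f n := by omega
        exact (Nat.pow_le_pow_left h5 _).trans (hM n (le_of_max_le_left hn))
    exact (e hf).mul (e hg)
  refine h2.mono 0 fun n _ => ?_
  nlinarith [Nat.zero_le (f n * g n)]

lemma exists_bound (g : ℕ → ℕ → ℕ) (hg : ∀ i, Subexponential (g i)) :
    ∃ F : ℕ → ℕ, Subexponential F ∧ ∀ i, ∃ N, ∀ n, N ≤ n → g i n ≤ F n := by
  classical
  -- `G i` is the sum of `g 0, ..., g i`
  have hG : ∀ i, Subexponential (fun n => ∑ j ∈ Finset.range (i + 1), g j n) := by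
    intro i
    induction i with
    | zero => simpa using hg 0
    | succ i ih =>
      simp_rw [Finset.sum_range_succ _ (i + 1)]
      exact ih.add (hg _)
  choose N hN using fun i => hG i i
  -- a strictly increasing sequence of thresholds
  let T : ℕ → ℕ := fun i => i + ∑ j ∈ Finset.range (i + 1), N j
  have hTN : ∀ i, N i ≤ T i := fun i => by
    have : N i ≤ ∑ j ∈ Finset.range (i + 1), N j :=
      Finset.single_le_sum (f := N) (fun _ _ => Nat.zero_le _) (by simp)
    exact this.trans (Nat.le_add_left _ _)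
  have hTi : ∀ i, i ≤ T i := fun i => Nat.le_add_right _ _
  have hTmono : ∀ i j, i ≤ j → T i ≤ T j := by
    intro i j h
    exact Nat.add_le_add h (Finset.sum_le_sum_of_subset (by
      intro x hx; simp at hx ⊢; omega))
  -- `K n` is the largest `i` with `T i ≤ n`, or `0`
  let K : ℕ → ℕ := fun n => Nat.findGreatest (fun i => T i ≤ n) n
  refine ⟨fun n => if T 0 ≤ n then ∑ j ∈ Finset.range (K n + 1), g j n else 0, ?_, ?_⟩
  · intro k
    refine ⟨T k, fun n hn => ?_⟩
    have h0 : T 0 ≤ n := (hTmono 0 k (Nat.zero_le _)).trans hn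
    have hk : k ≤ K n := Nat.le_findGreatest ((hTi k).trans hn) hn
    have hK : T (K n) ≤ n := Nat.findGreatest_spec (P := fun i => T i ≤ n) (Nat.zero_le _) h0
    simp only [if_pos h0]
    have h1 := hN (K n) n ((hTN _).trans hK)
    rcases Nat.eq_zero_or_pos (∑ j ∈ Finset.range (K n + 1), g j n) with hz | hz
    · rw [hz]
      rcases Nat.eq_zero_or_pos k with rfl | hk0
      · simpa using Nat.one_le_two_pow
      · rw [zero_pow (by omega)]; exact Nat.zero_le _
    · exact (Nat.pow_le_pow_right hz hk).trans h1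
  · intro i
    refine ⟨T i, fun n hn => ?_⟩
    have h0 : T 0 ≤ n := (hTmono 0 i (Nat.zero_le _)).trans hn
    have hk : i ≤ K n := Nat.le_findGreatest ((hTi i).trans hn) hn
    simp only [if_pos h0]
    exact Finset.single_le_sum (f := fun j => g j n) (fun _ _ => Nat.zero_le _) (by simp; omega)

lemma exists_strictMono_bound (g : ℕ → ℕ → ℕ) (hg : ∀ i, Subexponential (g i)) :
    ∃ F : ℕ → ℕ, StrictMono F ∧ (∀ n, n ^ 2 ≤ F n) ∧ Subexponential F ∧
      ∀ i, ∃ N, ∀ n, N ≤ n → g i n ≤ F n := by
  obtain ⟨F, hF, hFg⟩ := exists_bound g hg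
  have hlin : Subexponential (fun n => n + 1) := by
    intro k
    obtain ⟨N, hN⟩ : ∃ N : ℕ, ∀ n, N ≤ n → (n + 1) ^ k ≤ 2 ^ n := by
      have h := (isLittleO_pow_const_const_pow_of_one_lt (R := ℝ) k (show (1 : ℝ) < 2 by norm_num))
      have h2 := h.bound (show (0 : ℝ) < 1 / 2 by norm_num)
      obtain ⟨N, hN⟩ := Filter.eventually_atTop.1 h2
      refine ⟨N, fun n hn => ?_⟩
      have h3 := hN (n + 1) (by omega)
      rw [Real.norm_of_nonneg (by positivity), Real.norm_of_nonneg (by positivity), pow_succ] at h3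
      have h4 : ((n + 1 : ℕ) : ℝ) ^ k ≤ (2 : ℝ) ^ n := by linarith
      exact_mod_cast h4
    exact ⟨N, hN⟩
  -- take partial sums
  have hsum : Subexponential (fun n => ∑ m ∈ Finset.range (n + 1), F m) := by
    -- bounded by `C + (n + 1) * max ...`; argue directly with powers
    intro k
    obtain ⟨A, hA⟩ := hF (2 * (k + 1))
    -- constant bounding the first terms
    let C := ∑ m ∈ Finset.range A, F m
    obtain ⟨B, hB⟩ := (Subexponential.mul (Subexponential.const (C + 1)) hlin) (2 * (k + 1))
    refine ⟨B, fun n hn => ?_⟩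
    have hterm : ∀ m ∈ Finset.range (n + 1), F m ^ (2 * (k + 1)) ≤ (C + 1) ^ (2 * (k + 1)) * 2 ^ n := by
      intro m hm
      have hm' : m ≤ n := by simpa [Nat.lt_succ_iff] using hm
      by_cases hmA : A ≤ m
      · refine (hA m hmA).trans ?_
        refine (Nat.pow_le_pow_right (by norm_num) hm').trans ?_
        exact Nat.le_mul_of_pos_left _ (by positivity)
      · have : F m ≤ C := Finset.single_le_sum (f := F) (fun _ _ => Nat.zero_le _)
          (by simp; omega)
        refine (Nat.pow_le_pow_left (this.trans (Nat.le_succ C)) _).trans ?_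
        exact Nat.le_mul_of_pos_right _ (by positivity)
    -- the sum is at most `(n + 1) * F m` for some `m ≤ n`
    obtain ⟨m, hm, hmax⟩ := Finset.exists_max_image (Finset.range (n + 1)) F ⟨0, by simp⟩
    have hs : ∑ j ∈ Finset.range (n + 1), F j ≤ (n + 1) * F m := by
      have := Finset.sum_le_card_nsmul (Finset.range (n + 1)) F (F m) hmax
      simpa using this
    have key : ((∑ j ∈ Finset.range (n + 1), F j) ^ (k + 1)) ^ 2 ≤ (2 ^ n) ^ 2 := by
      calc ((∑ j ∈ Finset.range (n + 1), F j) ^ (k + 1)) ^ 2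
          = (∑ j ∈ Finset.range (n + 1), F j) ^ (2 * (k + 1)) := by rw [← pow_mul, mul_comm]
        _ ≤ ((n + 1) * F m) ^ (2 * (k + 1)) := Nat.pow_le_pow_left hs _
        _ = (n + 1) ^ (2 * (k + 1)) * F m ^ (2 * (k + 1)) := mul_pow _ _ _
        _ ≤ (n + 1) ^ (2 * (k + 1)) * ((C + 1) ^ (2 * (k + 1)) * 2 ^ n) :=
            Nat.mul_le_mul_left _ (hterm m hm)
        _ = ((C + 1) * (n + 1)) ^ (2 * (k + 1)) * 2 ^ n := by rw [mul_pow]; ring
        _ ≤ 2 ^ n * 2 ^ n := Nat.mul_le_mul_right _ (hB n hn)
        _ = (2 ^ n) ^ 2 := by ring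
    have key2 := (Nat.pow_le_pow_iff_left (by norm_num)).1 key
    show (∑ j ∈ Finset.range (n + 1), F j) ^ k ≤ 2 ^ n
    rcases Nat.eq_zero_or_pos (∑ j ∈ Finset.range (n + 1), F j) with hz | hz
    · rw [hz]
      rcases Nat.eq_zero_or_pos k with rfl | hk0
      · simpa using Nat.one_le_two_pow
      · rw [zero_pow (by omega)]; exact Nat.zero_le _
    · exact (Nat.pow_le_pow_right hz (Nat.le_succ k)).trans key2
  refine ⟨fun n => (n + 1) * (n + 1) + ∑ m ∈ Finset.range (n + 1), F m, ?_, ?_, ?_, ?_⟩
  · refine strictMono_nat_of_lt_succ fun n => ?_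
    rw [Finset.sum_range_succ _ (n + 1)]
    nlinarith [Nat.zero_le (F (n + 1))]
  · intro n
    nlinarith [Nat.zero_le (∑ m ∈ Finset.range (n + 1), F m)]
  · exact (hlin.mul hlin).add hsum
  · intro i
    obtain ⟨N, hN⟩ := hFg i
    refine ⟨N, fun n hn => (hN n hn).trans ?_⟩
    have : F n ≤ ∑ m ∈ Finset.range (n + 1), F m :=
      Finset.single_le_sum (f := F) (fun _ _ => Nat.zero_le _) (by simp)
    exact this.trans (Nat.le_add_left _ _)

/-! ### There are only countably many growth functions -/

lemma ball_map {S T : Type*} [Semigroup S] [Semigroup T] (e : S ≃* T) (X : Set S) (n : ℕ) :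
    ball (e '' X) n = e '' ball X n := by
  have hfold : ∀ (l : List S) (a : S), (l.map e).foldl (· * ·) (e a) = e (l.foldl (· * ·) a) := by
    intro l
    induction l with
    | nil => simp
    | cons b t ih => intro a; simp only [List.map_cons, List.foldl_cons, ← map_mul, ih]
  ext s
  constructor
  · rintro ⟨_, ⟨a, ha, rfl⟩, l, hl, hn, rfl⟩
    refine ⟨(l.map e.symm).foldl (· * ·) a, ⟨a, ha, l.map e.symm, ?_, by simpa using hn, rfl⟩, ?_⟩
    · intro x hx
      obtain ⟨y, hy, rfl⟩ := List.mem_map.1 hx
      obtain ⟨z, hz, hzy⟩ := hl y hy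
      rw [← hzy]; simpa using hz
    · rw [← hfold]; simp
  · rintro ⟨_, ⟨a, ha, l, hl, hn, rfl⟩, rfl⟩
    refine ⟨e a, ⟨a, ha, rfl⟩, l.map e, ?_, by simpa using hn, hfold l a⟩
    intro x hx
    obtain ⟨y, hy, rfl⟩ := List.mem_map.1 hx
    exact ⟨y, hl y hy, rfl⟩

lemma growth_map {S T : Type*} [Semigroup S] [Semigroup T] (e : S ≃* T) (X : Set S) (n : ℕ) :
    growth (e '' X) n = growth X n := by
  rw [growth, growth, ball_map, Set.ncard_image_of_injective _ e.injective]

instance countable_freeSemigroup (k : ℕ) : Countable (FreeSemigroup (Fin k)) := by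
  have : Function.Injective (fun w : FreeSemigroup (Fin k) => (w.head, w.tail)) := by
    rintro ⟨a, l⟩ ⟨b, m⟩ h
    simp only [Prod.mk.injEq] at h
    obtain ⟨rfl, rfl⟩ := h
    rfl
  exact this.countable

/-- Codes of growth functions of finitely presented semigroups: a number of letters, a finite set
of relations, and a finite set of words. -/
abbrev Code : Type := Σ k : ℕ,
  Finset (FreeSemigroup (Fin k) × FreeSemigroup (Fin k)) × Finset (FreeSemigroup (Fin k))

/-- The growth function with a given code. -/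
noncomputable def codeGrowth (c : Code) : ℕ → ℕ :=
  growth (((fun w : FreeSemigroup (Fin c.1) => (w : (conGen (fun u v => (u, v) ∈ c.2.1)).Quotient))) ''
    (c.2.2 : Set (FreeSemigroup (Fin c.1))))

lemma exists_code {S : Type*} [Semigroup S] (hS : FinitelyPresented S) {X : Set S} (hX : X.Finite) :
    ∃ c : Code, growth X = codeGrowth c := by
  classical
  obtain ⟨k, R, ⟨e⟩⟩ := hS
  let π : FreeSemigroup (Fin k) → (conGen (fun u v => (u, v) ∈ R)).Quotient := fun w => w
  have hπ : Function.Surjective π := Quotient.mk_surjective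
  obtain ⟨W, hW, hWX⟩ := (Set.exists_subset_image_finite_and (f := π) (s := Set.univ)
    (p := fun Y => Y = e '' X)).1 ⟨e '' X, by
      rw [Set.image_univ, hπ.range_eq]; exact Set.subset_univ _, hX.image _, rfl⟩
  obtain ⟨hWf, hWX⟩ := hWX
  refine ⟨⟨k, R, hWf.toFinset⟩, ?_⟩
  funext n
  rw [codeGrowth]
  simp only [Set.Finite.coe_toFinset]
  rw [show (fun w : FreeSemigroup (Fin k) => (w : (conGen (fun u v => (u, v) ∈ R)).Quotient)) '' W
    = e '' X from hWX, growth_map]

/-! ### The result -/

/-- **Trofimov's oscillation theorem fails for finitely presented semigroups.** There is a strictly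
increasing function `f₂` with `n ^ 2 ⪯ f₂ ⪯ 2 ^ n` which is not equivalent to `2 ^ n`, such that for
every subexponential function `f₁`, every finitely presented semigroup `S` and every finite subset
`X` of `S` (in particular every finite generating set), the growth function of `S` with respect to
`X` is at least `f₁` for all large arguments, or at most `f₂` for all large arguments. The function
`f₁ n = n ^ 3` is strictly increasing and subexponential, and it satisfies
`n ^ 2 ⪯ f₁ ⪯ 2 ^ n` and is not equivalent to `n ^ 2`. -/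
theorem result :
    (∃ f₂ : ℕ → ℕ, StrictMono f₂ ∧ Dom (fun n => n ^ 2) f₂ ∧ Dom f₂ (fun n => 2 ^ n) ∧
      ¬ Equivalent f₂ (fun n => 2 ^ n) ∧
      ∀ f₁ : ℕ → ℕ, Subexponential f₁ →
        ∀ (S : Type*) [Semigroup S], FinitelyPresented S → ∀ X : Finset S,
          (∃ N, ∀ n, N ≤ n → f₁ n ≤ growth (X : Set S) n) ∨
            (∃ N, ∀ n, N ≤ n → growth (X : Set S) n ≤ f₂ n)) ∧
    (StrictMono (fun n : ℕ => n ^ 3) ∧ Subexponential (fun n => n ^ 3) ∧
      Dom (fun n => n ^ 2) (fun n => n ^ 3) ∧ Dom (fun n => n ^ 3) (fun n => 2 ^ n) ∧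
      ¬ Equivalent (fun n => n ^ 3) (fun n => n ^ 2)) := by
  classical
  constructor
  · -- enumerate the subexponential growth functions
    obtain ⟨enum, henum⟩ : ∃ enum : ℕ → Code, Function.Surjective enum := by
      have : Nonempty Code := ⟨⟨0, ∅, ∅⟩⟩
      exact exists_surjective_nat Code
    let g : ℕ → ℕ → ℕ := fun i => if Subexponential (codeGrowth (enum i)) then codeGrowth (enum i)
      else fun _ => 0
    have hg : ∀ i, Subexponential (g i) := by
      intro i
      by_cases h : Subexponential (codeGrowth (enum i))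
      · simp only [g, if_pos h]; exact h
      · simp only [g, if_neg h]; exact Subexponential.const 0
    obtain ⟨F, hFm, hF2, hF, hFg⟩ := exists_strictMono_bound g hg
    refine ⟨F, hFm, ⟨1, le_rfl, fun n => by simpa using hF2 n⟩, ?_, ?_, ?_⟩
    · obtain ⟨N, hN⟩ := hF 1
      refine ⟨F N + 1, by omega, fun n => ?_⟩
      have h1 : 1 ≤ 2 ^ ((F N + 1) * n) := Nat.one_le_two_pow
      rcases le_total N n with h | h
      · have h2 := hN n h
        rw [pow_one] at h2
        refine h2.trans ?_
        refine (Nat.pow_le_pow_right (by norm_num)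
          (Nat.le_mul_of_pos_left n (Nat.succ_pos (F N)))).trans ?_
        exact Nat.le_mul_of_pos_left _ (Nat.succ_pos _)
      · have h2 : F n ≤ F N := hFm.monotone h
        calc F n ≤ F N + 1 := by omega
          _ = (F N + 1) * 1 := by ring
          _ ≤ _ := Nat.mul_le_mul_left _ h1
    · rintro ⟨-, C, hC, h⟩
      -- `2 ^ n ≤ C * F (C * n)` and `(F m) ^ (2 * C) ≤ 2 ^ m`
      obtain ⟨N, hN⟩ := (Subexponential.mul (Subexponential.const C) hF) (2 * C)
      have h1 := h (N + 1)
      have h2 := hN (C * (N + 1)) (by nlinarith)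
      have h3 : (2 ^ (N + 1)) ^ (2 * C) ≤ 2 ^ (C * (N + 1)) := (Nat.pow_le_pow_left h1 _).trans h2
      rw [← pow_mul] at h3
      have h4 := (Nat.pow_le_pow_iff_right (by norm_num : 1 < 2)).1 h3
      nlinarith
    · intro f₁ hf₁ S _ hS X
      obtain ⟨c, hc⟩ := exists_code hS (X := (X : Set S)) X.finite_toSet
      obtain ⟨i, hi⟩ := henum c
      have hfin := X.finite_toSet
      have h0 : growth (X : Set S) 0 = 0 := by
        rw [growth]
        have : ball (X : Set S) 0 = ∅ := by
          ext s; constructor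
          · rintro ⟨a, -, l, -, h, -⟩; omega
          · simp
        rw [this]; simp
      rcases dichotomy (h := fun n => growth (X : Set S) n + 1) (by simp [h0])
        (fun m n h => Nat.add_le_add_right (growth_mono hfin h) 1)
        (fun m n => growth_submul hfin m n) with hsub | ⟨k, hk, hexp⟩
      · right
        have hs : Subexponential (codeGrowth (enum i)) := by
          rw [hi, ← hc]
          exact hsub.mono 0 fun n _ => Nat.le_succ _
        obtain ⟨N, hN⟩ := hFg i
        refine ⟨N, fun n hn => ?_⟩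
        have := hN n hn
        simp only [g, if_pos hs] at this
        rw [hc, ← hi]; exact this
      · left
        obtain ⟨N, hN⟩ := (hf₁.add (Subexponential.const 1)) k
        refine ⟨N, fun n hn => ?_⟩
        have h1 : (f₁ n + 1) ^ k ≤ (growth (X : Set S) n + 1) ^ k := (hN n hn).trans (hexp n)
        have h2 := (Nat.pow_le_pow_iff_left (by omega)).1 h1
        omega
  · have hsub : Subexponential (fun n => n ^ 3) := by
      intro k
      have h := (isLittleO_pow_const_const_pow_of_one_lt (R := ℝ) (3 * k)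
        (show (1 : ℝ) < 2 by norm_num))
      have h2 := h.bound (show (0 : ℝ) < 1 by norm_num)
      obtain ⟨N, hN⟩ := Filter.eventually_atTop.1 h2
      refine ⟨N, fun n hn => ?_⟩
      have h3 := hN n hn
      rw [Real.norm_of_nonneg (by positivity), Real.norm_of_nonneg (by positivity), one_mul] at h3
      show (n ^ 3) ^ k ≤ 2 ^ n
      rw [← pow_mul]
      exact_mod_cast h3
    refine ⟨fun a b h => Nat.pow_lt_pow_left h (by norm_num), hsub, ⟨1, le_rfl, fun n => ?_⟩, ?_, ?_⟩
    · simp only [one_mul]
      rcases Nat.eq_zero_or_pos n with rfl | h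
      · simp
      · exact Nat.pow_le_pow_right h (by norm_num)
    · refine ⟨8, by norm_num, fun n => ?_⟩
      have h1 : n < 2 ^ n := Nat.lt_two_pow_self
      calc n ^ 3 ≤ (2 ^ n) ^ 3 := Nat.pow_le_pow_left h1.le _
        _ = 2 ^ (n * 3) := (pow_mul _ _ _).symm
        _ ≤ 2 ^ (8 * n) := Nat.pow_le_pow_right (by norm_num) (by omega)
        _ ≤ 8 * 2 ^ (8 * n) := Nat.le_mul_of_pos_left _ (by norm_num)
    · rintro ⟨⟨C, hC, h⟩, -⟩
      have := h (C ^ 3 + 1)
      simp only at this
      have h2 : C * (C * (C ^ 3 + 1)) ^ 2 = C ^ 3 * (C ^ 3 + 1) ^ 2 := by ring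
      rw [h2, pow_succ (C ^ 3 + 1) 2, mul_comm] at this
      have h3 : 0 < (C ^ 3 + 1) ^ 2 := by positivity
      have h4 := Nat.le_of_mul_le_mul_right this h3
      omega

end Pool.Agent.Results.MP_dd6e79_al.OscillationFails
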